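import Pool.Agent.Lib.MP_320961_gt.Tr.Grp

/-! A reductive group that contains a group acting cocompactly on `G / H` is transitive. -/

open Matrix NormedSpace Filter Topology

namespace Pool.Agent.Lib.MP_320961_gt.Old.Transitive

open Pool.Agent.Lib.MP_320961_gt.Tr

/-- `G` is a closed group of real matrices, `g` is its Lie algebra, `g` is stable under
transposition, and `G = K exp p` (Cartan decomposition). -/
structure Reductive {n : ℕ} (G : Subgroup (GL (Fin n) ℝ))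
    (g : Submodule ℝ (Matrix (Fin n) (Fin n) ℝ)) : Prop where
  closed : IsClosed (G : Set (GL (Fin n) ℝ))
  lie : ∀ X, X ∈ g ↔ ∀ t : ℝ, ∃ x ∈ G, x.val = exp (t • X)
  transpose : ∀ X ∈ g, Xᵀ ∈ g
  cartan : ∀ x ∈ G, ∃ k : Matrix (Fin n) (Fin n) ℝ, ∃ Y ∈ g,
    kᵀ * k = 1 ∧ Yᵀ = Y ∧ x.val = k * exp Y

/-- The skew elements of `g` that commute with all symmetric elements of `g`. -/
def CompactPart {n : ℕ} (g : Submodule ℝ (Matrix (Fin n) (Fin n) ℝ))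
    (X : Matrix (Fin n) (Fin n) ℝ) : Prop :=
  X ∈ g ∧ Xᵀ = -X ∧ ∀ S ∈ g, Sᵀ = S → X * S = S * X

theorem result {n : ℕ} (G : Subgroup (GL (Fin n) ℝ)) (H L Γ : Subgroup G)
    (g h l : Submodule ℝ (Matrix (Fin n) (Fin n) ℝ)) (hG : Reductive G g)
    (hH : Reductive (H.map G.subtype) h) (hL : Reductive (L.map G.subtype) l)
    (a : G) (hΓ : ∀ c ∈ Γ, a⁻¹ * c * a ∈ L)
    (hc : CompactSpace (MulAction.orbitRel.Quotient Γ (G ⧸ H))) :
    (∀ X ∈ g, ∃ A ∈ l, ∃ B ∈ h, ∃ C, CompactPart g C ∧ X = A + B + C) ∧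
      ((∀ C, CompactPart g C → C ∈ l) → (∀ x : G ⧸ H, IsOpen (MulAction.orbit L x)) ∧
        (PreconnectedSpace (G ⧸ H) → MulAction.IsPretransitive L (G ⧸ H))) := by
  have rG : Red G g := ⟨hG.1, hG.2, hG.3, hG.4⟩
  have rH : Red _ h := ⟨hH.1, hH.2, hH.3, hH.4⟩
  have rL : Red _ l := ⟨hL.1, hL.2, hL.3, hL.4⟩
  obtain ⟨R, hR⟩ := exists_bound H Γ a
  have hB : Bdd G l h R := bdd_of rH rL fun x hx => by
    obtain ⟨c, k1, b, k2, k3⟩ := hR ⟨x, hx⟩
    exact ⟨_, ⟨_, hΓ c k1, rfl⟩, _, ⟨b, k2, rfl⟩, k3⟩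
  have hHG := G.map_subtype_le H
  have hLG := G.map_subtype_le L
  refine ⟨fun X hX => ?_, fun hl => ?_⟩
  · rw [← core rG.ex_mem (rG.sub rG le_rfl) rG.ad (rG.sub rL hLG) (rG.sub rH hHG) hB] at hX
    obtain ⟨_, k1, C, k2, rfl⟩ := Submodule.mem_sup.1 hX
    obtain ⟨A, k3, B, k4, rfl⟩ := Submodule.mem_sup.1 k1
    exact ⟨A, k3, B, k4, C, k2, rfl⟩
  have ho : ∀ x : G ⧸ H, IsOpen (MulAction.orbit L x) := fun x => by
    rw [← QuotientGroup.isOpenQuotientMap_mk.isQuotientMap.isOpen_preimage, isOpen_iff_eventually]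
    intro y hy
    filter_upwards [(continuous_subtype_val.tendsto y).eventually
      (open_coset rG rH rL hHG hLG hB hl y.2)] with w hw
    obtain ⟨_, ⟨c, k1, rfl⟩, _, ⟨b, k2, rfl⟩, e⟩ := hw w.2
    obtain ⟨d, hd⟩ := hy
    refine ⟨⟨c, k1⟩ * d, ?_⟩
    change (⟨c, k1⟩ * d : L) • x = (w : G ⧸ H)
    rw [mul_smul, show d • x = (y : G ⧸ H) from hd, show w = c * y * b from Subtype.ext e,
      QuotientGroup.mk_mul_of_mem _ k2]
    rfl
  refine ⟨ho, fun _ => ⟨fun x y => ?_⟩⟩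
  have hcl : IsClosed (MulAction.orbit L x) := by
    rw [← isOpen_compl_iff, isOpen_iff_forall_mem_open]
    exact fun z hz => ⟨_, fun u hu hx => hz (by
      rw [← MulAction.orbit_eq_iff.2 hx, MulAction.orbit_eq_iff.2 hu]
      exact MulAction.mem_orbit_self z), ho z, MulAction.mem_orbit_self z⟩
  exact Set.eq_univ_iff_forall.1 (IsClopen.eq_univ ⟨hcl, ho x⟩ ⟨x, MulAction.mem_orbit_self x⟩) y

end Pool.Agent.Lib.MP_320961_gt.Old.Transitive
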